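import Mathlib
import Pool.Agent.Q273.CG.Mills

set_option autoImplicit false

/-!
# Mills-type numbers `A ^ (x_n)` all of which lie in record runs of composite numbers

Mills: for some `A > 1` all the integer parts of `A ^ (3 ^ n)` are prime. Here the opposite: for
every sequence of exponents with `x_{n+1} ≥ (1 + δ) x_n`, `δ > 0` arbitrarily small (for instance
`x_n = C ^ n` for every `C > 1`), the set of the `A` such that ALL the numbers `A ^ (x_n)`,
`n ≥ n₀`, lie in runs of composite numbers of record length `c f(A ^ (x_n))`, with the integer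
parts in prescribed residue classes, has Hausdorff dimension at least `1 - ε`, with `c` depending
on `ε`, `δ` only, and dimension `1` if `c` may depend on `A`;
`f(x) = log x (log₂ x)² log₄ x / (log₃ x)²` is the record scale of the starting files.
-/

open Filter Topology

namespace Pool.Agent.Results.MP_69be96_nt.MillsNumbersInRecordRuns

/-- The record scale `f(x) = log x (log₂ x)² log₄ x / (log₃ x)²` (iterated natural logarithms). -/
noncomputable def f (x : ℝ) : ℝ :=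
  Real.log x * (Real.log (Real.log x)) ^ 2 * Real.log (Real.log (Real.log (Real.log x))) /
    (Real.log (Real.log (Real.log x))) ^ 2

/-- Every prime is at a distance greater than `H` from the real number `y`. -/
def Far (H y : ℝ) : Prop := ∀ q : ℕ, q.Prime → H < |(q : ℝ) - y|

/-- `g(n) = p(n+1) - p(n) - 1`, where `p(n) = Nat.nth Nat.Prime (n - 1)`, `n ≥ 1`. -/
noncomputable def g (n : ℕ) : ℝ :=
  (Nat.nth Nat.Prime n : ℝ) - (Nat.nth Nat.Prime (n - 1) : ℝ) - 1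

/-- 1. relates `Far` to the function `g` of the problem. 2. is the theorem with a uniform constant
(moduli `d_n ≤ u ^ (η x_n)` without prime factors greater than `B`), 3. the version with a constant
which depends on `A` (moduli `d_n ≤ exp (o(x_n))`), 4. the case of the exponents `C ^ n`. -/
theorem result :
    (∀ H y : ℝ, 2 ≤ y → Far H y → ∃ n : ℕ, 1 ≤ n ∧ (Nat.nth Nat.Prime (n - 1) : ℝ) ≤ y ∧
      y ≤ (Nat.nth Nat.Prime n : ℝ) ∧ 2 * H - 1 < g n) ∧
    (∀ ε δ : ℝ, 0 < ε → ε < 1 → 0 < δ → ∀ B : ℕ, ∃ c : ℝ, 0 < c ∧ ∃ η : ℝ, 0 < η ∧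
      ∀ x : ℕ → ℝ, (∀ n, 0 < x n) → (∀ n, (1 + δ) * x n ≤ x (n + 1)) →
      ∀ d r : ℕ → ℕ, (∀ n, 1 ≤ d n) → (∀ n, ∀ p : ℕ, p.Prime → p ∣ d n → p ≤ B) →
      ∀ u v : ℝ, 1 < u → u < v → (∀ᶠ n in atTop, (d n : ℝ) ≤ u ^ (η * x n)) →
      ENNReal.ofReal (1 - ε) ≤
        dimH {A : ℝ | u < A ∧ A < v ∧ ∀ᶠ n in atTop, ⌊A ^ x n⌋₊ ≡ r n [MOD d n] ∧
          Far (c * f (A ^ x n)) (A ^ x n)}) ∧
    (∀ δ : ℝ, 0 < δ → ∀ B : ℕ, ∀ x : ℕ → ℝ, (∀ n, 0 < x n) →
      (∀ n, (1 + δ) * x n ≤ x (n + 1)) → ∀ d r : ℕ → ℕ, (∀ n, 1 ≤ d n) →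
      (∀ n, ∀ p : ℕ, p.Prime → p ∣ d n → p ≤ B) →
      (∀ η : ℝ, 0 < η → ∀ᶠ n in atTop, (d n : ℝ) ≤ Real.exp (η * x n)) →
      ∀ u v : ℝ, 1 < u → u < v →
        dimH {A : ℝ | u < A ∧ A < v ∧ ∃ c : ℝ, 0 < c ∧ ∀ᶠ n in atTop,
          ⌊A ^ x n⌋₊ ≡ r n [MOD d n] ∧ Far (c * f (A ^ x n)) (A ^ x n)} = 1) ∧
    (∀ C : ℝ, 1 < C → ∀ u v : ℝ, 1 < u → u < v →
        dimH {A : ℝ | u < A ∧ A < v ∧ ∃ c : ℝ, 0 < c ∧ ∀ᶠ n : ℕ in atTop,
          Far (c * f (A ^ (C ^ n))) (A ^ (C ^ n))} = 1) := by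
  refine ⟨fun H y hy h => ?_, Pool.Agent.Q273.CG.mills_core,
    fun δ hδ B x hx hxδ d r hd hdB hdR u v hu huv =>
      Pool.Agent.Q273.CG.mills_one δ hδ B x hx hxδ d r hd hdB hdR u v hu huv,
    fun C hC u v hu huv => ?_⟩
  · obtain ⟨m, h1, h2, h3⟩ := Pool.Agent.Q273.CG.Far.gap hy h
    refine ⟨m + 1, by omega, by simpa using h1, h2, ?_⟩
    unfold g
    rw [Nat.add_sub_cancel]
    linarith
  · have h := Pool.Agent.Q273.CG.mills_one (C - 1) (by linarith) 0 (fun n => C ^ n)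
      (fun n => by positivity) (fun n => le_of_eq (by ring)) (fun _ => 1) (fun _ => 0)
      (fun _ => le_rfl) (fun _ p hp hp1 => absurd (Nat.dvd_one.1 hp1) hp.one_lt.ne')
      (fun η hη => Eventually.of_forall fun n => by
        simpa using (by positivity : 0 ≤ η * C ^ n)) u v hu huv
    rw [← h]
    congr 1
    ext A
    simp only [Set.mem_ofPred_eq, Nat.modEq_one, true_and]
    rfl

end Pool.Agent.Results.MP_69be96_nt.MillsNumbersInRecordRuns
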