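import Pool.Agent.Q120.MF.Dim
import Pool.Agent.Q120.MF.Exists

/-!
# The multifractal spectrum of the gaps in Cramér's model

`x n` is any sequence of positive reals with `∑ (x n)^(-ε) < ∞` for all `ε > 0` (for example `b ^ n`, `b > 1`).
In Cramér's random model of the primes, almost surely, the set of the `α ∈ [1, 2]` such that the interval
`(α x n, α x n + c (log x n)^2]` contains no element of the random set for infinitely many `n` has Hausdorff
dimension exactly `1 - c` for all `c ∈ [0, 1]`, and is empty for `c > 1`. If `log x (n + 1) / log x n → ∞`, the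
same holds with all large `n` instead of infinitely many `n`.
-/

set_option autoImplicit false

namespace Pool.Agent.Results.MP_69be96_nt.MultifractalGaps

open Finset MeasureTheory Filter Pool.Agent.Q120.ET Pool.Agent.Q120.MF
open scoped ENNReal

theorem le_of_forall_rat {s : ℝ} {d : ℝ≥0∞} (hs : 0 ≤ s)
    (h : ∀ r : ℚ, (r : ℝ) < s → 0 < (r : ℝ) → ENNReal.ofReal r ≤ d) : ENNReal.ofReal s ≤ d := by
  rcases hs.eq_or_lt with h0 | h0
  · rw [← h0, ENNReal.ofReal_zero]; exact bot_le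
  · apply le_of_forall_lt
    intro c hc
    rcases eq_or_ne c ⊤ with hct | hct
    · rw [hct] at hc; exact absurd hc (not_lt.2 le_top)
    have h1 : c.toReal < s := by
      rw [← ENNReal.ofReal_toReal hct] at hc
      exact (ENNReal.ofReal_lt_ofReal_iff h0).1 hc
    obtain ⟨r, hr1, hr2⟩ := exists_rat_btwn h1
    have hr0 : (0 : ℝ) < r := lt_of_le_of_lt ENNReal.toReal_nonneg hr1
    refine lt_of_lt_of_le ?_ (h r hr2 hr0)
    rw [← ENNReal.ofReal_toReal hct]
    exact (ENNReal.ofReal_lt_ofReal_iff hr0).2 hr1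

theorem ofReal_le_of_forall_rat {s : ℝ} {d : ℝ≥0∞}
    (h : ∀ r : ℚ, s < (r : ℝ) → d ≤ ENNReal.ofReal r) : d ≤ ENNReal.ofReal s := by
  have h1 : Filter.Tendsto (fun t : ℝ => ENNReal.ofReal t) (nhds s) (nhds (ENNReal.ofReal s)) :=
    ENNReal.continuous_ofReal.tendsto s
  have h2 : ∀ n : ℕ, ∃ r : ℚ, s < (r : ℝ) ∧ (r : ℝ) < s + 1 / ((n : ℝ) + 1) := by
    intro n
    exact exists_rat_btwn (by
      have : (0 : ℝ) < 1 / ((n : ℝ) + 1) := by positivity
      linarith)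
  choose r hr1 hr2 using h2
  have h3 : Tendsto (fun n => (r n : ℝ)) atTop (nhds s) := by
    have h4 : Tendsto (fun n : ℕ => s + 1 / ((n : ℝ) + 1)) atTop (nhds (s + 0)) :=
      tendsto_const_nhds.add tendsto_one_div_add_atTop_nhds_zero_nat
    rw [add_zero] at h4
    exact tendsto_of_tendsto_of_tendsto_of_le_of_le tendsto_const_nhds h4 (fun n => (hr1 n).le)
      (fun n => (hr2 n).le)
  exact ge_of_tendsto (h1.comp h3) (Eventually.of_forall (fun n => h _ (hr1 n)))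

variable {Ω : Type*} [MeasurableSpace Ω] {μ : Measure Ω} [IsProbabilityMeasure μ] {A : Ω → Set ℕ}

theorem often_zero (S : Set ℕ) (x : ℕ → ℝ) : Often S x 0 = Set.Icc 1 2 := by
  ext α
  constructor
  · rintro ⟨h1, h2, _⟩
    exact ⟨h1, h2⟩
  · rintro ⟨h1, h2⟩
    refine ⟨h1, h2, (Eventually.of_forall (fun n => ?_)).frequently⟩
    rintro m _ ⟨h3, h4⟩
    rw [zero_mul, add_zero] at h4
    linarith

theorem always_zero (S : Set ℕ) (x : ℕ → ℝ) : Always S x 0 = Set.Icc 1 2 := by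
  ext α
  constructor
  · rintro ⟨h1, h2, _⟩
    exact ⟨h1, h2⟩
  · rintro ⟨h1, h2⟩
    refine ⟨h1, h2, (Eventually.of_forall (fun n => ?_))⟩
    rintro m _ ⟨h3, h4⟩
    rw [zero_mul, add_zero] at h4
    linarith

theorem dimH_Icc : dimH (Set.Icc (1 : ℝ) 2) = 1 := by
  rw [Real.dimH_of_nonempty_interior (by rw [interior_Icc]; exact ⟨3 / 2, by norm_num⟩)]
  simp

theorem upper_dim {S : Set ℕ} {x : ℕ → ℝ} (hx0 : ∀ n, 0 < x n)
    (hx : ∀ ε : ℝ, 0 < ε → Summable (fun n => x n ^ (-ε)))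
    (h : ∀ c δ : ℚ, 0 < (c : ℝ) → 0 < (δ : ℝ) →
      ∀ᶠ n in atTop, ((starts S c (x n)).card : ℝ) < x n ^ (1 - (c : ℝ) + δ))
    {c : ℝ} (hc0 : 0 < c) (hc1 : c ≤ 1) : dimH (Often S x c) ≤ ENNReal.ofReal (1 - c) := by
  apply ofReal_le_of_forall_rat
  intro r hr
  obtain ⟨c', hc'1, hc'2⟩ := exists_rat_btwn (show max (1 - (r : ℝ)) 0 < c from max_lt (by linarith) hc0)
  have h1 : 1 - (r : ℝ) < c' := lt_of_le_of_lt (le_max_left _ _) hc'1
  have h2 : (0 : ℝ) < c' := lt_of_le_of_lt (le_max_right _ _) hc'1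
  obtain ⟨δ, hδ1, hδ2⟩ := exists_rat_btwn (show (0 : ℝ) < r - 1 + c' by linarith)
  refine (dimH_mono (often_anti hc'2.le)).trans ?_
  exact dimH_often_le hx0 hx h2.le (h c' δ h2 hδ1) (by linarith) (by linarith)

/-- **The multifractal spectrum of the gaps in Cramér's model.** -/
theorem result :
    -- Cramér's model exists
    (IsProbabilityMeasure cramerMeasure ∧ IsCramer cramerMeasure cramerSet) ∧
    ∀ (Ω : Type) [MeasurableSpace Ω] (μ : Measure Ω) [IsProbabilityMeasure μ] (A : Ω → Set ℕ),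
      IsCramer μ A → ∀ x : ℕ → ℝ, (∀ n, 0 < x n) → (∀ ε : ℝ, 0 < ε → Summable (fun n => x n ^ (-ε))) →
      ∀ᵐ ω ∂μ,
        (∀ c : ℝ, 0 ≤ c → c ≤ 1 → dimH (Often (A ω) x c) = ENNReal.ofReal (1 - c)) ∧
        (∀ c : ℝ, 1 < c → Often (A ω) x c = ∅) ∧
        (Tendsto (fun n => Real.log (x (n + 1)) / Real.log (x n)) atTop atTop →
          ∀ c : ℝ, 0 ≤ c → c ≤ 1 → dimH (Always (A ω) x c) = ENNReal.ofReal (1 - c)) := by
  refine ⟨⟨inferInstance, isCramer⟩, ?_⟩
  intro Ω _ μ _ A hA x hx0 hx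
  have hxt := eventually_large hx0 hx
  have h1 : ∀ c δ : ℚ, ∀ᵐ ω ∂μ, 0 < (c : ℝ) → 0 < (δ : ℝ) →
      ∀ᶠ n in atTop, ((starts (A ω) c (x n)).card : ℝ) < x n ^ (1 - (c : ℝ) + δ) := by
    intro c δ
    by_cases h : 0 < (c : ℝ) ∧ 0 < (δ : ℝ)
    · filter_upwards [few_starts hA hx0 hx h.1 h.2] with ω hω _ _
      exact hω
    · exact ae_of_all _ (fun ω h2 h3 => absurd ⟨h2, h3⟩ h)
  have h2 : ∀ c θ : ℚ, ∀ᵐ ω ∂μ, 0 < (c : ℝ) → (c : ℝ) < θ → (θ : ℝ) < 1 →
      ∀ᶠ n in atTop, Hits (A ω) c θ (x n) := by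
    intro c θ
    by_cases h : 0 < (c : ℝ) ∧ (c : ℝ) < θ ∧ (θ : ℝ) < 1
    · filter_upwards [hits hA hx0 hx h.1 h.2.1 h.2.2] with ω hω _ _ _
      exact hω
    · exact ae_of_all _ (fun ω h3 h4 h5 => absurd ⟨h3, h4, h5⟩ h)
  have h1' := ae_all_iff.2 (fun c => ae_all_iff.2 (h1 c))
  have h2' := ae_all_iff.2 (fun c => ae_all_iff.2 (h2 c))
  filter_upwards [h1', h2'] with ω hω1 hω2
  have hup : ∀ c : ℝ, 0 ≤ c → c ≤ 1 → dimH (Often (A ω) x c) ≤ ENNReal.ofReal (1 - c) := by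
    intro c hc0 hc1
    rcases hc0.eq_or_lt with h0 | h0
    · rw [← h0, often_zero, dimH_Icc]; simp
    · exact upper_dim hx0 hx hω1 h0 hc1
  refine ⟨?_, ?_, ?_⟩
  · intro c hc0 hc1
    apply le_antisymm (hup c hc0 hc1)
    rcases hc0.eq_or_lt with h0 | h0
    · rw [← h0, often_zero, dimH_Icc]; simp
    apply le_of_forall_rat (by linarith)
    intro r hr1 hr0
    obtain ⟨c', hc'1, hc'2⟩ := exists_rat_btwn (show c < 1 - (r : ℝ) by linarith)
    obtain ⟨θ, hθ1, hθ2⟩ := exists_rat_btwn hc'2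
    have h3 := le_dimH_often hxt (c := c') (θ := θ) (ε := 1 - θ - r) (by linarith) hθ1 (by linarith)
      (by linarith) (hω2 c' θ (by linarith) hθ1 (by linarith))
    rw [show 1 - (θ : ℝ) - (1 - θ - r) = r by ring] at h3
    exact h3.trans (dimH_mono (often_anti hc'1.le))
  · intro c hc
    obtain ⟨c', hc'1, hc'2⟩ := exists_rat_btwn hc
    obtain ⟨δ, hδ1, hδ2⟩ := exists_rat_btwn (show (0 : ℝ) < c' - 1 by linarith)
    have h3 : ∀ᶠ n in atTop, (starts (A ω) c' (x n)).card = 0 := by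
      filter_upwards [hω1 c' δ (by linarith) hδ1, hxt.eventually_ge_atTop 1] with n hn hn1
      have h4 : x n ^ (1 - (c' : ℝ) + δ) ≤ 1 := Real.rpow_le_one_of_one_le_of_nonpos hn1 (by linarith)
      have h5 : ((starts (A ω) c' (x n)).card : ℝ) < 1 := lt_of_lt_of_le hn h4
      have h6 : (starts (A ω) c' (x n)).card < 1 := by exact_mod_cast h5
      omega
    have h4 := often_empty hx0 (c := c') (by linarith) h3
    exact Set.subset_eq_empty (often_anti hc'2.le) h4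
  · intro hgrow c hc0 hc1
    apply le_antisymm ((dimH_mono always_subset_often).trans (hup c hc0 hc1))
    rcases hc0.eq_or_lt with h0 | h0
    · rw [← h0, always_zero, dimH_Icc]; simp
    apply le_of_forall_rat (by linarith)
    intro r hr1 hr0
    obtain ⟨c', hc'1, hc'2⟩ := exists_rat_btwn (show c < 1 - (r : ℝ) by linarith)
    obtain ⟨θ, hθ1, hθ2⟩ := exists_rat_btwn hc'2
    have hε : 0 < 1 - (θ : ℝ) - r := by linarith
    have hg : ∀ᶠ n in atTop, 16 * x n ≤ x (n + 1) ^ (1 - (θ : ℝ) - r) := by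
      have hlogt : Tendsto (fun n => Real.log (x n)) atTop atTop := Real.tendsto_log_atTop.comp hxt
      filter_upwards [hgrow.eventually_ge_atTop (2 / (1 - (θ : ℝ) - r)),
        hlogt.eventually_ge_atTop (Real.log 16), hlogt.eventually_gt_atTop 0] with n hn1 hn2 hn3
      rw [div_le_div_iff₀ hε hn3] at hn1
      have h4 : Real.log (16 * x n) ≤ Real.log (x (n + 1)) * (1 - (θ : ℝ) - r) := by
        rw [Real.log_mul (by norm_num) (hx0 n).ne']
        linarith
      rw [Real.rpow_def_of_pos (hx0 (n + 1)), ← Real.log_le_iff_le_exp (by have := hx0 n; positivity)]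
      exact h4
    have h3 := le_dimH_always hxt (c := c') (θ := θ) (ε := 1 - θ - r) (by linarith) hθ1 hε
      (by linarith) (hω2 c' θ (by linarith) hθ1 (by linarith)) hg
    rw [show 1 - (θ : ℝ) - (1 - θ - r) = r by ring] at h3
    exact h3.trans (dimH_mono (always_anti hc'1.le))

end Pool.Agent.Results.MP_69be96_nt.MultifractalGaps
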