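import Pool.Agent.Q145.TP.Law
import Pool.Agent.Q145.RA.Shifts

set_option autoImplicit false
set_option maxHeartbeats 4000000

/-!
# The longest prime-free runs along random sequences of shifts

Cramér conjectured that the gaps between consecutive primes up to `x` are at most `C log² x`
(and that the largest one is `(1 + o(1)) log² x`).  We replace the sequence of shifts
`1, 2, 3, ...` by `a_1, ..., a_K` in `[1, Y]` and determine, for almost all sequences, the
largest gap in the two-parameter family: the longest run of consecutive indices `i` for which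
`n + a_i` is composite, over all `n` in a set `V` of `X` points of `[1, Y]`, has length
`(1 + o(1)) log (X K) log Y`.  Both `X` and `K` are arbitrary (`X = 1` is allowed) as soon as
`X K` is at least a large power of `log Y`.
-/

namespace Pool.Agent.Results.MP_69be96_nt.PrimeFreeRunsLaw

open Finset

open scoped Classical

/-- All sequences of length `K` of integers from `[1, Y]`. -/
def Seqs (Y K : ℕ) : Finset (Fin K → ℕ) := Fintype.piFinset (fun _ : Fin K => Icc 1 Y)

/-- There is a prime-free run of length `t`: for some `n ∈ V` and some `j ≤ K - t` none of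
`n + a_(j+1), ..., n + a_(j+t)` is a prime (the terms of the sequence are `a_{i+1} = a i`,
`i : Fin K`). -/
def HasRun (V : Finset ℕ) (t : ℕ) {K : ℕ} (a : Fin K → ℕ) : Prop :=
  ∃ n ∈ V, ∃ j : ℕ, j + t ≤ K ∧ ∀ i : Fin K, j ≤ (i : ℕ) → (i : ℕ) < j + t → ¬ (n + a i).Prime

open Pool.Agent.Q145.TP Pool.Agent.Q145.RA

theorem result (ε : ℝ) (hε : 0 < ε) (hε1 : ε ≤ 1) : ∃ (η : ℝ) (N₀ Y₀ : ℕ), 0 < η ∧
    ∀ (V : Finset ℕ) (Y K : ℕ), V.Nonempty → V ⊆ Icc 1 Y → Y₀ ≤ Y → N₀ ≤ V.card * K →
    Real.log Y ≤ ((V.card : ℝ) * K) ^ η →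
    (((Seqs Y K).filter (fun a => ¬ ∀ t : ℕ,
      (HasRun V t a → (t : ℝ) ≤ (1 + ε) * (Real.log (V.card * K) * Real.log Y)) ∧
      (t ≤ K → (t : ℝ) ≤ (1 - ε) * (Real.log (V.card * K) * Real.log Y) → HasRun V t a))).card : ℝ) ≤
      ε * (Y : ℝ) ^ K := by
  obtain ⟨η, X₀, N₀, hη, h1⟩ := runs_law (α := ℕ) (β := ℕ) ε hε hε1
  obtain ⟨Y₁, h2⟩ := reg_shifts η hη
  obtain ⟨Y₂, h3⟩ := Pool.Agent.Q145.RC.window η hη
  obtain ⟨Y₃, h4⟩ := Filter.eventually_atTop.1
    ((Real.tendsto_log_atTop.comp tendsto_natCast_atTop_atTop).eventually_ge_atTop (1 / η))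
  refine ⟨η, N₀, max (max Y₁ Y₂) Y₃, hη, fun V Y K hV hVY hY hN hlog => ?_⟩
  have hY₁ : Y₁ ≤ Y := ((le_max_left _ _).trans (le_max_left _ _)).trans hY
  have hY₂ : Y₂ ≤ Y := ((le_max_right _ _).trans (le_max_left _ _)).trans hY
  have hY₃ : Y₃ ≤ Y := (le_max_right _ _).trans hY
  have hl : 1 / η ≤ Real.log Y := h4 Y hY₃
  have hL : 0 < Real.log Y := lt_of_lt_of_le (by positivity) hl
  have hdeg : ∀ n ∈ V, (1 - η) * (Y / Real.log Y) ≤ (((Icc 1 Y).filter (fun a => (n + a).Prime)).card : ℝ) ∧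
      (((Icc 1 Y).filter (fun a => (n + a).Prime)).card : ℝ) ≤ (1 + η) * (Y / Real.log Y) := fun n hn =>
    h3 Y hY₂ n (mem_Icc.1 (hVY hn)).2
  have h5 := h1 (1 / Real.log Y) (Icc 1 Y) V (fun n a => (n + a).Prime) (by positivity) (by
      rw [div_le_iff₀ hL]
      rw [div_le_iff₀ hη] at hl
      linarith) hV (fun n hn => by
      rw [Nat.card_Icc, Nat.add_sub_cancel]
      refine le_trans (le_of_eq ?_) ((hdeg n hn).1.trans (le_of_eq (congrArg Nat.cast (card_filter_inst _ _ _ _))))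
      ring) (fun n hn => by
      rw [Nat.card_Icc, Nat.add_sub_cancel]
      refine (le_of_eq (congrArg Nat.cast (card_filter_inst _ _ _ _))).trans ((hdeg n hn).2.trans (le_of_eq ?_))
      ring) (fun _ hX => h2 Y hY₁ V hVY hX) K hN (by
      rw [one_div_one_div]
      exact hlog)
  rw [Nat.card_Icc, Nat.add_sub_cancel] at h5
  refine le_trans (Nat.cast_le.2 (card_le_card ?_)) h5
  intro a ha
  unfold Seqs at ha
  rw [mem_filter] at ha ⊢
  refine ⟨ha.1, fun hP => ha.2 fun t => ?_⟩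
  have e1 : Real.log (V.card * K) / (1 / Real.log Y) = Real.log (V.card * K) * Real.log Y := by
    rw [div_div_eq_mul_div, div_one]
  have h6 := hP t
  rw [e1] at h6
  exact h6

end Pool.Agent.Results.MP_69be96_nt.PrimeFreeRunsLaw
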