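import Pool.Agent.Q120.GM.Rec4
import Pool.Agent.Q120.GM.Exists

/-!
# The maximal gaps in the sieved models of the primes: their number, positions and sizes

`Q` is the level: the random set contains each `n` coprime to `Q` independently with
probability `min(1, (Q/φ(Q))/log n)`, and no other `n`. For `Q = 1` this is the model of Cramér.

A maximal gap is a pair of consecutive elements `a < b` with a difference exceeding all the differences
between consecutive elements up to `a`. Almost surely, the number of maximal gaps up to `x` is `~ 2 log x`;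
the `n`-th maximal gap ends at `exp((1/2 + o(1)) n)` and has length `(1/4 + o(1)) n²`.
-/

set_option autoImplicit false

namespace Pool.Agent.Results.MP_69be96_nt.RecordGaps

open MeasureTheory Filter Pool.Agent.Q120.GM
open scoped Topology

/-- The number of the maximal gaps `(a, b)` of `S` with `b ≤ x`. -/
noncomputable def number (S : Set ℕ) (x : ℕ) : ℕ := Set.ncard {b : ℕ | b ≤ x ∧ ∃ a, IsMaxGap S a b}

/-- The law of the maximal gaps. -/
structure Law (S : Set ℕ) : Prop where
  count : Tendsto (fun x : ℕ => (number S x : ℝ) / Real.log x) atTop (𝓝 2)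
  size : ∀ ε : ℝ, 0 < ε → ∀ᶠ b : ℕ in atTop, ∀ a, IsMaxGap S a b →
    |((b : ℝ) - a) / Real.log b ^ 2 - 1| ≤ ε ∧ |((b : ℝ) - a) / (number S b : ℝ) ^ 2 - 1 / 4| ≤ ε

theorem number_eq (S : Set ℕ) (x : ℕ) : (number S x : ℝ) = RR S x := by
  classical
  have h1 : {b : ℕ | b ≤ x ∧ ∃ a, IsMaxGap S a b} =
      (((Finset.range (x + 1)).filter (fun b => Mode S b ∧ b ∈ S) : Finset ℕ) : Set ℕ) := by
    ext b
    rw [Set.mem_setOf_eq, maxGap_iff, Finset.coe_filter, Set.mem_setOf_eq, Finset.mem_range, Nat.lt_succ_iff]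
  unfold number
  rw [h1, Set.ncard_coe_finset, Finset.card_filter]
  push_cast
  unfold RR rr
  refine Finset.sum_congr rfl (fun m _ => ?_)
  by_cases h : Mode S m ∧ m ∈ S
  · rw [if_pos h]
  · rw [if_neg h]

theorem law {Ω : Type*} [MeasurableSpace Ω] {μ : Measure Ω} [IsProbabilityMeasure μ] {A : Ω → Set ℕ} {Q : ℕ}
    (hA : IsModel μ (level Q) A) (hQ : 1 ≤ Q) : ∀ᵐ ω ∂μ, Law (A ω) := by
  filter_upwards [records hA hQ] with ω hω
  obtain ⟨h1, h2⟩ := hω
  have h3 : Tendsto (fun x : ℕ => (number (A ω) x : ℝ) / Real.log x) atTop (𝓝 2) := by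
    simp only [number_eq]
    exact h2
  refine ⟨h3, ?_⟩
  have h4 : Tendsto (fun x : ℕ => (W (A ω) x : ℝ) / (number (A ω) x : ℝ) ^ 2) atTop (𝓝 (1 / 4)) := by
    have h5 := h1.div (h3.pow 2) (by norm_num)
    have h6 : (1 : ℝ) / 2 ^ 2 = 1 / 4 := by norm_num
    rw [h6] at h5
    refine h5.congr' ?_
    filter_upwards [Pool.Agent.Q120.AD.hl.eventually_gt_atTop 0] with x hx
    have hx' : Real.log (x : ℝ) ≠ 0 := hx.ne'
    simp only [Pi.div_apply]
    rw [div_pow, div_div_div_cancel_right₀ (pow_ne_zero 2 hx')]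
  intro ε hε
  have h5 := (Metric.tendsto_nhds.1 h1) ε hε
  have h6 := (Metric.tendsto_nhds.1 h4) ε hε
  filter_upwards [h5, h6] with b h7 h8 a hab
  have h9 : ((b : ℝ) - a) = (W (A ω) b : ℝ) := by
    rw [← maxGap_W hab, Nat.cast_sub hab.1.1.le]
  rw [h9]
  rw [Real.dist_eq] at h7 h8
  exact ⟨h7.le, h8.le⟩

/-- **The number, the positions and the sizes of the maximal gaps.** -/
theorem result : (∀ Q : ℕ, IsModel (prodMeasure (level Q)) (level Q) (trueSet (ι := ℕ))) ∧
    ∀ (Ω : Type) (_ : MeasurableSpace Ω) (μ : Measure Ω) (_ : IsProbabilityMeasure μ) (A : Ω → Set ℕ) (Q : ℕ),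
      1 ≤ Q → IsModel μ (level Q) A → ∀ᵐ ω ∂μ, Law (A ω) := by
  refine ⟨fun Q => isModel (level Q) (level_nonneg Q) (level_le_one Q), ?_⟩
  intro Ω _ μ _ A Q hQ hA
  exact law hA hQ

end Pool.Agent.Results.MP_69be96_nt.RecordGaps
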